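import Pool.Agent.helper69.AD.GS3

/-!
Module BR5 (MP_a29257_gt): the representation after an earthquake.
-/

open scoped MatrixGroups LinearAlgebra.Projectivization
open Matrix UpperHalfPlane

namespace AdSBend

noncomputable section

/-- every point off the leaves is near some leaf -/
theorem BR5_near (pn3 : PN3_stmt) (pn6 : PN6_stmt) {Γ : Subgroup SL(2, ℝ)}
    (hΓ : IsClosedSurfaceGroup Γ) (S : LeafSystem Γ) (hne : S.L.Nonempty) (z : ℍ)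
    (hz : S.OffPt z) : ∃ p ∈ S.L, S.Near p z := by
  obtain ⟨p, hp⟩ := hne
  obtain ⟨⟨z₀, hz₀⟩, -, -, h4, -⟩ := pn3 Γ hΓ S p hp
  by_cases hs : S.SamePl z₀ z
  · exact ⟨p, hp, h4 z₀ z hz₀ hz hs⟩
  · obtain ⟨q, w, hw, hacr, -⟩ := (pn6 Γ hΓ S).2 z₀ z hz₀.1 hz hs
    have hq : q ∈ S.L := hacr.1
    obtain ⟨-, -, -, -, h5⟩ := pn3 Γ hΓ S q hq
    exact ⟨(q.2, q.1), S.swap q hq, (h5 w z hw hz hacr).2⟩

/-- the endpoints of a leaf near `z` are visible: no leaf in front of which `z` lies has such an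
endpoint behind it -/
theorem BR5_vis_aux (bd4 : BD4_stmt) (pt1 : PT1_stmt) (pt3 : PT3_stmt) (pn1 : PN1_stmt)
    {Γ : Subgroup SL(2, ℝ)} (hΓ : IsClosedSurfaceGroup Γ) (S : LeafSystem Γ) (p : Bd × Bd)
    (hp : p ∈ S.L) (z : ℍ) (hz : S.Near p z) (c : Bd) (hc : c = p.1 ∨ c = p.2) (r : Bd × Bd)
    (hr : r ∈ S.L) (hfr : FrontPt r z) : ¬ Cyc r.1 c r.2 := by
  obtain ⟨b1, b2, b3, b4, b5, -⟩ := bd4
  intro hcyc
  obtain ⟨hoff, hfp, hns⟩ := hz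
  have hrp : r ≠ p := by
    rintro rfl
    rcases hc with rfl | rfl
    · exact (b1 _ _ _ hcyc).1 rfl
    · exact (b1 _ _ _ hcyc).2.1 rfl
  have hrp' : r ≠ (p.2, p.1) := by
    rintro rfl
    rcases hc with rfl | rfl
    · exact (b1 _ _ _ hcyc).2.1 rfl
    · exact (b1 _ _ _ hcyc).1 rfl
  rcases pn1 Γ hΓ S p hp r hr hrp hrp' with h | h | h | h
  · exact hns r hr hfr h
  · obtain ⟨h1, h2⟩ := h
    rcases hc with rfl | rfl
    · exact b3 _ _ _ h1 (b2 _ _ _ hcyc)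
    · exact b3 _ _ _ hcyc (b5 _ _ _ _ h1 h2).2
  · obtain ⟨h1, h2⟩ := h
    rcases hc with rfl | rfl
    · exact b3 _ _ _ h2 (b2 _ _ _ hcyc)
    · exact b3 _ _ _ (b5 _ _ _ _ h1 h2).2 (b2 _ _ _ hcyc)
  · have h3 := pt3.2 (p.2, p.1) (r.2, r.1) z h (by
      have := (pt1 1 z p.1 p.2).2.2.2
      have h4 : side z p.1 p.2 < 0 := hfp
      show 0 ≤ side z p.2 p.1
      rw [this]; linarith)
    have h5 := (pt1 1 z r.1 r.2).2.2.2
    have h6 : side z r.1 r.2 < 0 := hfr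
    have h7 : side z r.2 r.1 < 0 := h3
    rw [h5] at h7
    linarith

/-- the endpoints of a leaf near `z` are visible from `z` -/
theorem BR5_vis (bd4 : BD4_stmt) (pt1 : PT1_stmt) (pt3 : PT3_stmt) (pn1 : PN1_stmt)
    {Γ : Subgroup SL(2, ℝ)} (hΓ : IsClosedSurfaceGroup Γ) (S : LeafSystem Γ) (p : Bd × Bd)
    (hp : p ∈ S.L) (z : ℍ) (hz : S.Near p z) (c : Bd) (hc : c = p.1 ∨ c = p.2) (r : Bd × Bd)
    (hr : r ∈ S.L) : ¬ SepIdeal r.1 r.2 z c := by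
  rintro (⟨h1, h2⟩ | ⟨h1, h2⟩)
  · have h5 := (pt1 1 z r.1 r.2).2.2.2
    exact BR5_vis_aux bd4 pt1 pt3 pn1 hΓ S p hp z hz c hc (r.2, r.1) (S.swap r hr)
      (by show side z r.2 r.1 < 0; rw [h5]; linarith) h2
  · exact BR5_vis_aux bd4 pt1 pt3 pn1 hΓ S p hp z hz c hc r hr h1 h2

/-- three distinct ideal points are visible from every point off the leaves -/
theorem BR5_three (bd4 : BD4_stmt) (pt1 : PT1_stmt) (pt3 : PT3_stmt) (pn1 : PN1_stmt)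
    (pn3 : PN3_stmt) (pn4 : PN4_stmt) (pn6 : PN6_stmt)
    {Γ : Subgroup SL(2, ℝ)} (hΓ : IsClosedSurfaceGroup Γ) (S : LeafSystem Γ)
    (hS : ∀ p ∈ S.L, ∃ q, S.CoPl p q) (hne : S.L.Nonempty) (z : ℍ) (hz : S.OffPt z) :
    ∃ a b c : Bd, a ≠ b ∧ b ≠ c ∧ c ≠ a ∧
      ∀ d, d = a ∨ d = b ∨ d = c → ∀ r ∈ S.L, ¬ SepIdeal r.1 r.2 z d := by
  obtain ⟨p, hp, hnear⟩ := BR5_near pn3 pn6 hΓ S hne z hz
  obtain ⟨q, hq⟩ := hS p hp
  have hqL : q ∈ S.L := hq.2.1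
  have hnq : S.Near q z := (pn4 Γ hΓ S p hp q hqL z hnear).2 (Or.inr hq)
  have hf : Facing p q := hq.2.2.1
  have hne' := bd4.1 _ _ _ hf.1
  refine ⟨p.1, p.2, q.1, hne'.1, hne'.2.1, hne'.2.2, ?_⟩
  rintro d (rfl | rfl | rfl) r hr
  · exact BR5_vis bd4 pt1 pt3 pn1 hΓ S p hp z hnear p.1 (Or.inl rfl) r hr
  · exact BR5_vis bd4 pt1 pt3 pn1 hΓ S p hp z hnear p.2 (Or.inr rfl) r hr
  · exact BR5_vis bd4 pt1 pt3 pn1 hΓ S q hqL z hnq q.1 (Or.inl rfl) r hr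

/-- invariance of the separation of points from ideal points -/
theorem BR5_sep (bd2 : BD2_stmt) (pt1 : PT1_stmt) (g : SL(2, ℝ)) (x y c : Bd) (z : ℍ)
    (h : SepIdeal (g • x) (g • y) (g • z) (g • c)) : SepIdeal x y z c := by
  obtain ⟨h1, h2, -, -⟩ := pt1 g z x y
  rcases h with ⟨ha, hb⟩ | ⟨ha, hb⟩
  · exact Or.inl ⟨h1.1 ha, (bd2 g _ _ _).1 hb⟩
  · exact Or.inr ⟨h2.1 ha, (bd2 g _ _ _).1 hb⟩

/-- BR5: the representation after an earthquake -/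
theorem BR5 (bd2 : BD2_stmt) (bd4 : BD4_stmt) (bd5 : BD5_stmt) (pt1 : PT1_stmt)
    (pt3 : PT3_stmt) (pn1 : PN1_stmt) (pn3 : PN3_stmt) (pn4 : PN4_stmt) (pn5 : PN5_stmt)
    (pn6 : PN6_stmt) : BR5_stmt := by
  intro Γ hΓ S hS hne ω f f' r r' B hf hf' hQ γ hγ z hz
  obtain ⟨a, b, c, hab, hbc, hca, hvis⟩ :=
    BR5_three bd4 pt1 pt3 pn1 pn3 pn4 pn6 hΓ S hS hne z hz
  obtain ⟨-, hB⟩ := hQ
  have hγz : S.OffPt (γ • z) := (pn5 Γ S).2.2.1 γ hγ z hz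
  -- visibility from `γ z`
  have hvis' : ∀ d, d = a ∨ d = b ∨ d = c → ∀ r ∈ S.L, ¬ SepIdeal r.1 r.2 (γ • z) (γ • d) := by
    intro d hd s hs hsep
    have hs' := S.inv γ⁻¹ (Γ.inv_mem hγ) s hs
    apply hvis d hd _ hs'
    apply BR5_sep bd2 pt1 γ
    show SepIdeal (γ • (γ⁻¹ • s.1)) (γ • (γ⁻¹ • s.2)) (γ • z) (γ • d)
    rw [smul_inv_smul, smul_inv_smul]
    exact hsep
  have key : ∀ d, d = a ∨ d = b ∨ d = c →
      ((B z)⁻¹ * (r' γ)⁻¹ * (B (γ • z) * r γ)) • f d = f d := by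
    intro d hd
    have h1 := hB z hz d (hvis d hd)
    have h2 := hB (γ • z) hγz (γ • d) (hvis' d hd)
    have h3 := hf.2 γ hγ d
    have h4 := hf'.2 γ hγ d
    rw [mul_smul, mul_smul, mul_smul, ← h3, h2, h4, inv_smul_smul, ← h1, inv_smul_smul]
  have hinj : ∀ x y : Bd, x ≠ y → f x ≠ f y := fun x y hxy h => hxy (f.injective h)
  have h5 := bd5 ((B z)⁻¹ * (r' γ)⁻¹ * (B (γ • z) * r γ)) (f a) (f b) (f c) (hinj _ _ hab)
    (hinj _ _ hbc) (hinj _ _ hca) (key a (Or.inl rfl)) (key b (Or.inr (Or.inl rfl)))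
    (key c (Or.inr (Or.inr rfl)))
  rcases h5 with h | h
  · left
    have h6 : B (γ • z) * r γ = r' γ * B z := by
      have := congrArg (fun x => r' γ * B z * x) h
      simp only [mul_one] at this
      rw [← this]
      group
    rw [h6]
    group
  · right
    have h6 : B (γ • z) * r γ = -(r' γ * B z) := by
      have := congrArg (fun x => r' γ * B z * x) h
      simp only [mul_neg, mul_one] at this
      rw [← this]
      group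
    rw [h6, neg_mul, neg_neg]
    group

end

end AdSBend
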