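import Pool.Agent.helper69.AD.GS3

/-!
Module BR4 (MP_a29257_gt): future bending is a left earthquake from the right to the left
structure. It is BR3 for the structure with left and right exchanged and the inverse planes.
-/

open scoped MatrixGroups LinearAlgebra.Projectivization
open Matrix UpperHalfPlane

namespace AdSBend

noncomputable section

/-- exchange of the left and right structures -/
def BR4_swap {Γ : Subgroup SL(2, ℝ)} (M : GHMC Γ) : GHMC Γ := ⟨M.right, M.left⟩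

theorem BR4_touches {Γ : Subgroup SL(2, ℝ)} (M : GHMC Γ) (N : SL(2, ℝ)) (c : Bd) :
    (BR4_swap M).Touches N⁻¹ c ↔ M.Touches N c := by
  unfold GHMC.Touches BR4_swap
  constructor
  · intro h
    have h' : N⁻¹ • M.right.bd c = M.left.bd c := h
    rw [← h', smul_inv_smul]
  · intro h
    show N⁻¹ • M.right.bd c = M.left.bd c
    rw [← h, inv_smul_smul]

theorem BR4_support (bd2 : BD2_stmt) {Γ : Subgroup SL(2, ℝ)} (M : GHMC Γ) (N : SL(2, ℝ))
    (h : M.FutureSupport N) : (BR4_swap M).PastSupport N⁻¹ := by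
  obtain ⟨⟨c₀, h0⟩, h1⟩ := h
  refine ⟨⟨c₀, (BR4_touches M N c₀).2 h0⟩, ?_⟩
  intro c₁ c hc₁ hcyc
  have ht : M.Touches N c₁ := (BR4_touches M N c₁).1 hc₁
  apply h1 c₁ c ht
  have hcyc' : Cyc (M.left.bd c) (N⁻¹ • M.right.bd c) (M.left.bd c₁) := hcyc
  have h2 := (bd2 N _ _ _).2 hcyc'
  rw [smul_inv_smul] at h2
  have ht' : N • M.left.bd c₁ = M.right.bd c₁ := ht
  rw [ht'] at h2
  exact h2

theorem BR4_trace (g h : SL(2, ℝ)) :
    Matrix.trace (((g⁻¹)⁻¹ * h⁻¹ : SL(2, ℝ)) : Matrix (Fin 2) (Fin 2) ℝ) =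
      Matrix.trace ((g⁻¹ * h : SL(2, ℝ)) : Matrix (Fin 2) (Fin 2) ℝ) := by
  simp only [inv_inv, Matrix.SpecialLinearGroup.coe_mul, Matrix.SpecialLinearGroup.coe_inv,
    Matrix.adjugate_fin_two, Matrix.trace_fin_two, Matrix.mul_apply, Fin.sum_univ_two]
  simp only [Matrix.of_apply, Matrix.cons_val', Matrix.cons_val_zero, Matrix.cons_val_one]
  simp
  ring

/-- BR4: future bending is a left earthquake from the right to the left structure -/
theorem BR4 (bd2 : BD2_stmt) (br3 : BR3_stmt) : BR4_stmt := by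
  intro Γ hΓ S hS hne M l r hl hr hM
  obtain ⟨N, hN1, hN2⟩ := hM
  have hP : (BR4_swap M).PastBending l := by
    refine ⟨fun z => (N z)⁻¹, ?_, ?_⟩
    · intro z hz
      obtain ⟨h1, h2⟩ := hN1 z hz
      exact ⟨BR4_support bd2 M (N z) h1, fun c hc => (BR4_touches M (N z) c).2 (h2 c hc)⟩
    · intro z z' x y hz hz' hadj
      have h3 := hN2 z z' x y hz hz' hadj
      have h4 := BR4_trace (N z) (N z')
      show |Matrix.trace ((((N z)⁻¹)⁻¹ * (N z')⁻¹ : SL(2, ℝ)) : Matrix (Fin 2) (Fin 2) ℝ)| =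
        2 * Real.cosh (l.w x y)
      rw [h4]
      exact h3
  exact br3 Γ hΓ S hS hne (BR4_swap M) l r hl hr hP

end

end AdSBend
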