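import Pool.Agent.helper69.AD.GS5

/-!
Module FB2 (MP_a29257_gt): two seams at the same leaf.
-/

open scoped MatrixGroups LinearAlgebra.Projectivization
open Matrix UpperHalfPlane

namespace AdSBend

noncomputable section

open LeafSystem

theorem FB2_peq_refl (g : SL(2, ℝ)) : PEq g g := Or.inl rfl

theorem FB2_peq_symm {g h : SL(2, ℝ)} (H : PEq g h) : PEq h g := by
  rcases H with rfl | rfl
  · exact Or.inl rfl
  · exact Or.inr (neg_neg _).symm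

theorem FB2_peq_trans {g h k : SL(2, ℝ)} (H : PEq g h) (H' : PEq h k) : PEq g k := by
  rcases H with rfl | rfl <;> rcases H' with rfl | rfl
  · exact Or.inl rfl
  · exact Or.inr rfl
  · exact Or.inr rfl
  · exact Or.inl (neg_neg _)

theorem FB2_peq_mul {g h g' h' : SL(2, ℝ)} (H : PEq g h) (H' : PEq g' h') :
    PEq (g * g') (h * h') := by
  rcases H with rfl | rfl <;> rcases H' with rfl | rfl
  · exact Or.inl rfl
  · exact Or.inr (by simp)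
  · exact Or.inr (by simp)
  · exact Or.inl (by simp)

theorem FB2_peq_inv {g h : SL(2, ℝ)} (H : PEq g h) : PEq g⁻¹ h⁻¹ := by
  rcases H with rfl | rfl
  · exact Or.inl rfl
  · right
    rw [inv_eq_iff_mul_eq_one]
    simp

theorem FB2_peq_zpow {g h : SL(2, ℝ)} (H : PEq g h) (n : ℤ) : PEq (g ^ n) (h ^ n) := by
  induction n using Int.induction_on with
  | zero => simpa using FB2_peq_refl (1 : SL(2, ℝ))
  | succ n ih =>
    rw [_root_.zpow_add_one, _root_.zpow_add_one]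
    exact FB2_peq_mul ih H
  | pred n ih =>
    rw [_root_.zpow_sub_one, _root_.zpow_sub_one]
    exact FB2_peq_mul ih (FB2_peq_inv H)

theorem FB2_peq_pos (g : SL(2, ℝ)) : PEq g (pos g) := by
  unfold pos
  split_ifs
  · exact Or.inl rfl
  · exact Or.inr (neg_neg _).symm

/-- powers under a projective representation -/
theorem FB2_rep_zpow {Γ : Subgroup SL(2, ℝ)} {r : SL(2, ℝ) → SL(2, ℝ)} (hr : IsPRep Γ r)
    (γ : SL(2, ℝ)) (hγ : γ ∈ Γ) (n : ℤ) : PEq (r (γ ^ n)) ((r γ) ^ n) := by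
  have h1 : PEq (r 1) 1 := by
    have h := hr 1 Γ.one_mem 1 Γ.one_mem 1 Γ.one_mem (Or.inl (by simp))
    have h2 := FB2_peq_mul (FB2_peq_refl (r 1)⁻¹) h
    rw [inv_mul_cancel, inv_mul_cancel_left] at h2
    exact FB2_peq_symm h2
  induction n using Int.induction_on with
  | zero => simpa using h1
  | succ n ih =>
    have h := hr (γ ^ (n : ℤ)) (Γ.zpow_mem hγ _) γ hγ (γ ^ ((n : ℤ) + 1)) (Γ.zpow_mem hγ _)
      (Or.inl (_root_.zpow_add_one γ _))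
    rw [_root_.zpow_add_one (r γ)]
    exact FB2_peq_trans h (FB2_peq_mul ih (FB2_peq_refl _))
  | pred n ih =>
    have h := hr (γ ^ (-(n : ℤ) - 1)) (Γ.zpow_mem hγ _) γ hγ (γ ^ (-(n : ℤ))) (Γ.zpow_mem hγ _)
      (Or.inl (by rw [← _root_.zpow_add_one]; congr 1; ring))
    rw [_root_.zpow_sub_one (r γ)]
    have h2 : PEq (r (γ ^ (-(n : ℤ) - 1)) * r γ) ((r γ) ^ (-(n : ℤ))) :=
      FB2_peq_trans (FB2_peq_symm h) ih
    have h3 := FB2_peq_mul h2 (FB2_peq_refl (r γ)⁻¹)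
    rw [mul_inv_cancel_right] at h3
    exact h3

theorem FB2_Dm_zpow (fa0 : FA0_stmt) (l : ℝ) (n : ℤ) : (Dm l) ^ n = Dm (n * l) := by
  obtain ⟨h1, h2, h3, -⟩ := fa0
  induction n using Int.induction_on with
  | zero => simp [h2]
  | succ n ih =>
    rw [_root_.zpow_add_one, ih, h1]
    congr 1
    push_cast
    ring
  | pred n ih =>
    rw [_root_.zpow_sub_one, ih, h3, h1]
    congr 1
    push_cast
    ring

/-- the powers of the generator fix the leaf -/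
theorem FB2_fix (gm1 : GM1_stmt) {Γ : Subgroup SL(2, ℝ)} (hΓ : IsClosedSurfaceGroup Γ)
    (S : LeafSystem Γ) (p : Bd × Bd) (hp : p ∈ S.L) (n : ℤ) :
    gen Γ p ∈ Γ ∧ ga (gen Γ p ^ n) p = p := by
  obtain ⟨h1, h2, -⟩ := gm1 Γ hΓ p (S.closed p hp)
  refine ⟨h1, ?_⟩
  obtain ⟨-, h3, h4, -⟩ := h2
  have h5 : gen Γ p ^ n • p.1 = p.1 := by
    have : gen Γ p ∈ MulAction.stabilizer SL(2, ℝ) p.1 := h3
    exact (MulAction.stabilizer SL(2, ℝ) p.1).zpow_mem this n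
  have h6 : gen Γ p ^ n • p.2 = p.2 := by
    have : gen Γ p ∈ MulAction.stabilizer SL(2, ℝ) p.2 := h4
    exact (MulAction.stabilizer SL(2, ℝ) p.2).zpow_mem this n
  show (gen Γ p ^ n • p.1, gen Γ p ^ n • p.2) = p
  rw [h5, h6]

/-- the seam frame of a translated seam -/
theorem FB2_shift (fa0 : FA0_stmt) (fb1 : FB1_stmt) (hx1 : HX1_stmt) (gm1 : GM1_stmt)
    {Γ : Subgroup SL(2, ℝ)} (hΓ : IsClosedSurfaceGroup Γ) (S : LeafSystem Γ) (p w : Bd × Bd)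
    (hp : p ∈ S.L) (hw : S.Seam p w) (n : ℤ) (r : SL(2, ℝ) → SL(2, ℝ)) (hr : S.AdmS r)
    (F F' : SL(2, ℝ)) (hF : IsSeamFrame (r (gen Γ p)) (r (gen Γ w)) F)
    (hF' : IsSeamFrame (r (gen Γ p)) (r (gen Γ (ga (gen Γ p ^ n) w))) F') :
    PEq F' (F * Dm (n * len (r (gen Γ p)))) := by
  obtain ⟨hg, hfix⟩ := FB2_fix gm1 hΓ S p hp n
  obtain ⟨-, b2, b3, -⟩ := fb1 Γ hΓ S r hr
  have hgn : gen Γ p ^ n ∈ Γ := Γ.zpow_mem hg n
  have h1 := b3 (gen Γ p ^ n) hgn p w F hw hF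
  rw [hfix] at h1
  have hseam : S.Seam p (ga (gen Γ p ^ n) w) := by
    obtain ⟨-, -, -, x4, -⟩ := hx1 Γ hΓ S
    obtain ⟨s, hs | hs⟩ := hw
    · have h := x4 _ hgn _ _ _ hs
      rw [hfix] at h
      exact ⟨_, Or.inl h⟩
    · have h := x4 _ hgn _ _ _ hs
      rw [hfix] at h
      exact ⟨_, Or.inr h⟩
  have h2 : PEq F' (r (gen Γ p ^ n) * F) := b2 p _ _ _ hseam h1 hF'
  refine FB2_peq_trans h2 ?_
  have hrep : IsPRep Γ r := hr.1.1
  have h3 := FB2_rep_zpow hrep (gen Γ p) hg n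
  obtain ⟨d, -, hpos, -⟩ := hF
  have h4 : PEq (r (gen Γ p)) (F * Dm (len (r (gen Γ p))) * F⁻¹) := by
    rw [← hpos]
    exact FB2_peq_pos _
  have h5 := FB2_peq_zpow h4 n
  rw [conj_zpow, FB2_Dm_zpow fa0] at h5
  have h6 := FB2_peq_mul (FB2_peq_trans h3 h5) (FB2_peq_refl F)
  rw [inv_mul_cancel_right] at h6
  exact h6

/-- a hexagon at `p` for each seam -/
theorem FB2_hex (hx1 : HX1_stmt) {Γ : Subgroup SL(2, ℝ)} (hΓ : IsClosedSurfaceGroup Γ)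
    (S : LeafSystem Γ) (p u : Bd × Bd) (hu : S.Seam p u) :
    ∃ x y, S.Hex p x y ∧ (u = x ∨ u = y) := by
  obtain ⟨s, hs | hs⟩ := hu
  · exact ⟨u, s, hs, Or.inl rfl⟩
  · exact ⟨s, u, (hx1 Γ hΓ S).1 _ _ _ hs, Or.inr rfl⟩

/-- the position of a seam with respect to a reference hexagon -/
theorem FB2_pos (fa0 : FA0_stmt) (fb1 : FB1_stmt) (hx1 : HX1_stmt) (hx7 : HX7_stmt)
    (gm1 : GM1_stmt) {Γ : Subgroup SL(2, ℝ)} (hΓ : IsClosedSurfaceGroup Γ) (S : LeafSystem Γ)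
    (hP : S.IsPants) (p x y u : Bd × Bd) (hp : p ∈ S.L) (hxy : S.Hex p x y)
    (hu : S.Seam p u) : ∃ m : ℤ, ∀ r : SL(2, ℝ) → SL(2, ℝ), S.AdmS r →
      ∀ F F', IsSeamFrame (r (gen Γ p)) (r (gen Γ x)) F →
        IsSeamFrame (r (gen Γ p)) (r (gen Γ u)) F' →
        PEq F' (F * Dm (m * (len (r (gen Γ p)) / 2))) := by
  obtain ⟨x1, y1, hx1y1, hu'⟩ := FB2_hex hx1 hΓ S p u hu
  obtain ⟨n, hn⟩ := (hx7 Γ hΓ S hP).1 p x y x1 y1 hxy hx1y1
  have hsx : S.Seam p x := ⟨y, Or.inl hxy⟩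
  have hsy : S.Seam p y := ⟨x, Or.inr ((hx1 Γ hΓ S).1 _ _ _ ((hx1 Γ hΓ S).1 _ _ _ hxy))⟩
  have key1 : ∀ k : ℤ, u = ga (gen Γ p ^ k) x → ∃ m : ℤ, ∀ r : SL(2, ℝ) → SL(2, ℝ), S.AdmS r →
      ∀ F F', IsSeamFrame (r (gen Γ p)) (r (gen Γ x)) F →
        IsSeamFrame (r (gen Γ p)) (r (gen Γ u)) F' →
        PEq F' (F * Dm (m * (len (r (gen Γ p)) / 2))) := by
    intro k hk
    refine ⟨2 * k, fun r hr F F' hF hF' => ?_⟩
    rw [hk] at hF'
    have h := FB2_shift fa0 fb1 hx1 gm1 hΓ S p x hp hsx k r hr F F' hF hF'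
    have e : (((2 * k : ℤ) : ℝ) * (len (r (gen Γ p)) / 2)) = k * len (r (gen Γ p)) := by
      push_cast; ring
    rw [e]
    exact h
  have key2 : ∀ k : ℤ, u = ga (gen Γ p ^ k) y → ∃ m : ℤ, ∀ r : SL(2, ℝ) → SL(2, ℝ), S.AdmS r →
      ∀ F F', IsSeamFrame (r (gen Γ p)) (r (gen Γ x)) F →
        IsSeamFrame (r (gen Γ p)) (r (gen Γ u)) F' →
        PEq F' (F * Dm (m * (len (r (gen Γ p)) / 2))) := by
    intro k hk
    refine ⟨2 * k + 1, fun r hr F F' hF hF' => ?_⟩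
    rw [hk] at hF'
    have hFy := ((fb1 Γ hΓ S r hr).2.2.2.1 p x y F hxy hF).2.2
    have h := FB2_shift fa0 fb1 hx1 gm1 hΓ S p y hp hsy k r hr _ F' hFy hF'
    have e : F * Dm ((2 * k + 1 : ℤ) * (len (r (gen Γ p)) / 2)) =
        F * Dm (len (r (gen Γ p)) / 2) * Dm (k * len (r (gen Γ p))) := by
      rw [mul_assoc, fa0.1]
      congr 2
      push_cast
      ring
    rw [e]
    exact h
  rcases hu' with h | h <;> rcases hn with ⟨ha, hb⟩ | ⟨ha, hb⟩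
  · exact key1 n (h.trans ha)
  · exact key2 n (h.trans ha)
  · exact key2 n (h.trans hb)
  · exact key1 (n + 1) (h.trans hb)

/-- FB2: two seams at the same leaf: the feet differ by a multiple of half the length -/
theorem FB2 (fa0 : FA0_stmt) (fb1 : FB1_stmt) (hx1 : HX1_stmt) (hx7 : HX7_stmt)
    (gm1 : GM1_stmt) : FB2_stmt := by
  intro Γ hΓ S hP p u u' hu hu'
  have hp : p ∈ S.L := by
    obtain ⟨x1, y1, hx, -⟩ := FB2_hex hx1 hΓ S p u hu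
    exact hx.1.1
  obtain ⟨x, y, hxy⟩ := hP.hex p hp
  have hsx : S.Seam p x := ⟨y, Or.inl hxy⟩
  obtain ⟨m, hm⟩ := FB2_pos fa0 fb1 hx1 hx7 gm1 hΓ S hP p x y u hp hxy hu
  obtain ⟨m', hm'⟩ := FB2_pos fa0 fb1 hx1 hx7 gm1 hΓ S hP p x y u' hp hxy hu'
  refine ⟨m' - m, fun r hr F F' hF hF' => ?_⟩
  obtain ⟨F0, hF0⟩ := (fb1 Γ hΓ S r hr).1 p x hsx
  have h1 := hm r hr F0 F hF0 hF
  have h2 := hm' r hr F0 F' hF0 hF'
  have h3 := FB2_peq_mul (FB2_peq_symm h1)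
    (FB2_peq_refl (Dm ((m' - m : ℤ) * (len (r (gen Γ p)) / 2))))
  refine FB2_peq_trans h2 ?_
  have e : F0 * Dm (m * (len (r (gen Γ p)) / 2)) * Dm ((m' - m : ℤ) * (len (r (gen Γ p)) / 2)) =
      F0 * Dm (m' * (len (r (gen Γ p)) / 2)) := by
    rw [mul_assoc, fa0.1]
    congr 2
    push_cast
    ring
  rw [e] at h3
  exact h3

end

end AdSBend
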