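import Pool.Agent.helper69.AD.GS5

/-!
Module FB3 (MP_a29257_gt): existence of reference data.
-/

open scoped MatrixGroups LinearAlgebra.Projectivization
open Matrix UpperHalfPlane

namespace AdSBend

noncomputable section

open LeafSystem

/-- equivalence of leaves under the group and the change of orientation -/
def FB3_rel {Γ : Subgroup SL(2, ℝ)} (S : LeafSystem Γ) (p q : S.L) : Prop :=
  ∃ γ ∈ Γ, q.1 = ga γ p.1 ∨ q.1 = ga γ (sw p.1)

theorem FB3_equiv {Γ : Subgroup SL(2, ℝ)} (S : LeafSystem Γ) : Equivalence (FB3_rel S) := by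
  refine ⟨?_, ?_, ?_⟩
  · intro p
    exact ⟨1, Γ.one_mem, Or.inl (by simp [ga])⟩
  · rintro p q ⟨γ, hγ, h | h⟩
    · refine ⟨γ⁻¹, Γ.inv_mem hγ, Or.inl ?_⟩
      rw [h]
      simp [ga]
    · refine ⟨γ⁻¹, Γ.inv_mem hγ, Or.inr ?_⟩
      rw [h]
      simp [ga]
  · rintro p q s ⟨γ, hγ, h⟩ ⟨δ, hδ, h'⟩
    refine ⟨δ * γ, Γ.mul_mem hδ hγ, ?_⟩
    rcases h with h | h <;> rcases h' with h' | h'
    · left; rw [h', h]; simp [ga, mul_smul]
    · right; rw [h', h]; simp [ga, mul_smul]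
    · right; rw [h', h]; simp [ga, mul_smul]
    · left; rw [h', h]; simp [ga, mul_smul]

/-- the setoid of leaves -/
def FB3_setoid {Γ : Subgroup SL(2, ℝ)} (S : LeafSystem Γ) : Setoid S.L :=
  ⟨FB3_rel S, FB3_equiv S⟩

theorem FB3_finite {Γ : Subgroup SL(2, ℝ)} (S : LeafSystem Γ) :
    Finite (Quotient (FB3_setoid S)) := by
  obtain ⟨s, hs⟩ := S.finite
  have hfin : Finite {x : Bd × Bd // x ∈ s} := inferInstance
  classical
  let T : Type := {x : Bd × Bd // x ∈ s ∧ x ∈ S.L}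
  have hT : Finite T := by
    have : Finite {x : Bd × Bd // x ∈ s ∧ x ∈ S.L} :=
      Finite.of_injective (fun x : {x : Bd × Bd // x ∈ s ∧ x ∈ S.L} =>
        (⟨x.1, x.2.1⟩ : {x : Bd × Bd // x ∈ s})) (by
          intro a b h
          exact Subtype.ext (congrArg (fun z : {x : Bd × Bd // x ∈ s} => z.1) h))
    exact this
  let F : T → Quotient (FB3_setoid S) := fun x => Quotient.mk (FB3_setoid S) ⟨x.1, x.2.2⟩
  have hF : Function.Surjective F := by
    intro c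
    obtain ⟨p, rfl⟩ := Quotient.exists_rep c
    obtain ⟨γ, hγ, hmem⟩ := hs p.1 p.2
    refine ⟨⟨(γ • p.1.1, γ • p.1.2), hmem, S.inv γ hγ p.1 p.2⟩, ?_⟩
    apply Quotient.sound
    show FB3_rel S _ _
    refine ⟨γ⁻¹, Γ.inv_mem hγ, Or.inl ?_⟩
    simp [ga]
  exact Finite.of_surjective F hF

/-- FB3: existence of reference data -/
theorem FB3 : FB3_stmt := by
  intro Γ hΓ S hP hne
  classical
  have := FB3_finite S
  obtain ⟨n, ⟨e⟩⟩ := Finite.exists_equiv_fin (Quotient (FB3_setoid S))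
  obtain ⟨p₀, hp₀⟩ := hne
  have hmem : ∀ j : Fin n, ((e.symm j).out : S.L).1 ∈ S.L := fun j => ((e.symm j).out : S.L).2
  have hU : ∀ j : Fin n, ∃ u, S.Seam ((e.symm j).out : S.L).1 u := by
    intro j
    obtain ⟨q, r, h⟩ := hP.hex _ (hmem j)
    exact ⟨q, r, Or.inl h⟩
  have hV : ∀ j : Fin n, ∃ v, S.Seam (sw ((e.symm j).out : S.L).1) v := by
    intro j
    obtain ⟨q, r, h⟩ := hP.hex _ (S.swap _ (hmem j))
    exact ⟨q, r, Or.inl h⟩
  choose U hU using hU
  choose V hV using hV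
  let cls : Bd × Bd → Fin n := fun p =>
    if h : p ∈ S.L then e (Quotient.mk (FB3_setoid S) ⟨p, h⟩)
    else e (Quotient.mk (FB3_setoid S) ⟨p₀, hp₀⟩)
  have hcls : ∀ p (h : p ∈ S.L), cls p = e (Quotient.mk (FB3_setoid S) ⟨p, h⟩) := by
    intro p h
    simp only [cls, dif_pos h]
  refine ⟨n, ⟨RefData.mk cls ?_ ?_ ?_ (fun j => ((e.symm j).out : S.L).1) U V hmem ?_ hU hV⟩⟩
  · intro γ hγ p hp
    have hp' : ga γ p ∈ S.L := S.inv γ hγ p hp
    rw [hcls _ hp', hcls _ hp]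
    congr 1
    apply Quotient.sound
    show FB3_rel S _ _
    refine ⟨γ⁻¹, Γ.inv_mem hγ, Or.inl ?_⟩
    simp [ga]
  · intro p hp
    have hp' : sw p ∈ S.L := S.swap p hp
    rw [hcls _ hp', hcls _ hp]
    congr 1
    apply Quotient.sound
    show FB3_rel S _ _
    exact ⟨1, Γ.one_mem, Or.inr (by simp [ga])⟩
  · intro p hp q hq h
    rw [hcls _ hp, hcls _ hq] at h
    have h1 := Quotient.exact (e.injective h)
    exact h1
  · intro j
    show cls ((e.symm j).out : S.L).1 = j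
    rw [hcls _ (hmem j)]
    have h1 : (Quotient.mk (FB3_setoid S) ⟨((e.symm j).out : S.L).1, hmem j⟩ :
        Quotient (FB3_setoid S)) = e.symm j := Quotient.out_eq (e.symm j)
    rw [h1]
    simp

end

end AdSBend
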